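import Mathlib

set_option autoImplicit false

/-!
Two large sets of cells which are read in different blocks of time.
-/

namespace Pool.Agent.Y601.OB

open Finset

/-- the number of colourings with given values on two disjoint sets -/
theorem card_colour {R : ℕ} (P Q : Finset (Fin R)) (h : Disjoint P Q) :
    (univ.filter fun χ : Fin R → Bool => (∀ b ∈ P, χ b = true) ∧ ∀ b ∈ Q, χ b = false).card *
      2 ^ (P.card + Q.card) = 2 ^ R := by
  classical
  have h3 : (univ.filter fun χ : Fin R → Bool => (∀ b ∈ P, χ b = true) ∧ ∀ b ∈ Q, χ b = false) =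
      Fintype.piFinset fun b => if b ∈ P then {true} else if b ∈ Q then {false} else univ := by
    ext χ
    simp only [mem_filter, mem_univ, true_and, Fintype.mem_piFinset]
    constructor
    · rintro ⟨h1, h2⟩ b
      by_cases hP : b ∈ P
      · rw [if_pos hP, mem_singleton]; exact h1 b hP
      · rw [if_neg hP]
        by_cases hQ : b ∈ Q
        · rw [if_pos hQ, mem_singleton]; exact h2 b hQ
        · rw [if_neg hQ]; exact mem_univ _
    · intro h1
      refine ⟨fun b hb => ?_, fun b hb => ?_⟩
      · have := h1 b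
        rwa [if_pos hb, mem_singleton] at this
      · have := h1 b
        rwa [if_neg fun hP => (Finset.disjoint_left.1 h hP hb), if_pos hb, mem_singleton] at this
  rw [h3, Fintype.card_piFinset]
  have h4 : ∀ b, (if b ∈ P then ({true} : Finset Bool) else if b ∈ Q then {false} else univ).card =
      if b ∈ P ∪ Q then 1 else 2 := by
    intro b
    by_cases hP : b ∈ P
    · simp [hP]
    · by_cases hQ : b ∈ Q
      · simp [hP, hQ]
      · simp [hP, hQ]
  simp only [h4]
  rw [← Finset.card_union_of_disjoint h]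
  have h6 : ∏ i : Fin R, (if i ∈ P ∪ Q then 2 else 1) = 2 ^ (P ∪ Q).card := by
    rw [Finset.prod_ite_mem, univ_inter, Finset.prod_const]
  rw [← h6, ← Finset.prod_mul_distrib, Finset.prod_congr rfl
    (g := fun _ => 2) fun i _ => by by_cases hi : i ∈ P ∪ Q <;> simp [hi]]
  simp

/-- **Two large sets of cells which are read in different blocks of time.** -/
theorem exists_colour {k L m T : ℕ} (hk : 1 ≤ k) (hL : 1 ≤ L) (hm : m = 8 * k * L)
    (hT : T ≤ k * m) (pos : ℕ → Fin m) :
    ∃ χ : ℕ → Bool,
      m ≤ 8 * 16 ^ k * (univ.filter fun i : Fin m => ∀ t < T, pos t = i → χ (t / L) = true).card ∧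
      m ≤ 8 * 16 ^ k *
        (univ.filter fun i : Fin m => ∀ t < T, pos t = i → χ (t / L) = false).card := by
  classical
  obtain ⟨R, hR⟩ : ∃ R, R = 8 * k ^ 2 := ⟨_, rfl⟩
  have hRL : k * m = R * L := by rw [hm, hR]; ring
  have hRpos : 0 < R := by rw [hR]; positivity
  have hmpos : 0 < m := by rw [hm]; positivity
  have hblk : ∀ t < T, t / L < R := fun t ht => by
    rw [Nat.div_lt_iff_lt_mul (by omega)]
    omega
  -- the blocks of a cell
  let β : Fin m → Finset (Fin R) := fun i => univ.filter fun b => ∃ t < T, t / L = b ∧ pos t = i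
  -- the incidences
  let I : Finset (Fin m × Fin R) := univ.filter fun p => p.2 ∈ β p.1
  have hIT : I.card ≤ T := by
    have h1 : I ⊆ (Finset.range T).image
        fun t => (pos t, (⟨(t / L) % R, Nat.mod_lt _ hRpos⟩ : Fin R)) := by
      rintro ⟨i, b⟩ hib
      obtain ⟨-, hib⟩ := mem_filter.1 hib
      obtain ⟨-, t, ht, htb, hti⟩ := mem_filter.1 hib
      refine mem_image.2 ⟨t, mem_range.2 ht, ?_⟩
      rw [Prod.mk.injEq]
      refine ⟨hti, Fin.ext ?_⟩
      simp only
      rw [htb]
      exact Nat.mod_eq_of_lt b.2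
    exact (card_le_card h1).trans (card_image_le.trans (by rw [card_range]))
  have hIsum : I.card = ∑ i, (β i).card := by
    have h1 : I.card = ∑ i : Fin m, (I.filter fun p => p.1 = i).card :=
      Finset.card_eq_sum_card_fiberwise fun p _ => mem_coe.2 (mem_univ _)
    rw [h1]
    refine Finset.sum_congr rfl fun i _ => ?_
    refine Finset.card_bij' (fun p _ => p.2) (fun b _ => (i, b)) ?_ ?_ ?_ ?_
    · rintro ⟨j, b⟩ hp
      obtain ⟨hp', hj⟩ := mem_filter.1 hp
      simp only at hj
      have h2 := (mem_filter.1 hp').2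
      simp only at h2
      rw [hj] at h2
      exact h2
    · intro b hb
      exact mem_filter.2 ⟨mem_filter.2 ⟨mem_univ _, hb⟩, rfl⟩
    · rintro ⟨j, b⟩ hp
      obtain ⟨-, hj⟩ := mem_filter.1 hp
      simp only at hj
      rw [hj]
    · intro b _
      rfl
  -- the good cells
  let G : Finset (Fin m) := univ.filter fun i => (β i).card ≤ 2 * k
  have hG : m ≤ 2 * G.card := by
    have h1 : (univ.filter fun i : Fin m => ¬ (β i).card ≤ 2 * k).card * (2 * k + 1) ≤ I.card := by
      rw [hIsum, ← smul_eq_mul, ← Finset.sum_const]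
      refine (Finset.sum_le_sum fun i hi => ?_).trans
        (Finset.sum_le_sum_of_subset (Finset.filter_subset _ _))
      have := (mem_filter.1 hi).2
      omega
    have h2 : G.card + (univ.filter fun i : Fin m => ¬ (β i).card ≤ 2 * k).card = m := by
      rw [Finset.card_filter_add_card_filter_not, card_univ, Fintype.card_fin]
    by_contra hcon
    have h3 : m < 2 * (univ.filter fun i : Fin m => ¬ (β i).card ≤ 2 * k).card := by omega
    have h4 : m * k < 2 * (univ.filter fun i : Fin m => ¬ (β i).card ≤ 2 * k).card * k :=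
      Nat.mul_lt_mul_of_pos_right h3 (by omega)
    have h5 : I.card ≤ k * m := hIT.trans hT
    nlinarith
  -- the pairs of cells which have a common block
  let Bad : Finset (Fin m × Fin m) := univ.filter fun p => ¬ Disjoint (β p.1) (β p.2)
  have hrow : ∀ b : Fin R, (univ.filter fun i : Fin m => b ∈ β i).card ≤ L := by
    intro b
    have h1 : (univ.filter fun i : Fin m => b ∈ β i) ⊆
        (Finset.range L).image fun l => pos (b * L + l) := by
      intro i hi
      obtain ⟨-, t, ht, htb, hti⟩ := mem_filter.1 (mem_filter.1 hi).2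
      refine mem_image.2 ⟨t % L, mem_range.2 (Nat.mod_lt _ hL), ?_⟩
      rw [← htb, mul_comm, Nat.div_add_mod]
      exact hti
    exact (card_le_card h1).trans (card_image_le.trans (by rw [card_range]))
  have hBad : Bad.card ≤ L * (k * m) := by
    have h1 : Bad.card ≤ ∑ b : Fin R, (univ.filter fun i : Fin m => b ∈ β i).card * L := by
      have h2 : Bad ⊆ (univ : Finset (Fin R)).biUnion fun b =>
          (univ.filter fun i : Fin m => b ∈ β i) ×ˢ (univ.filter fun i : Fin m => b ∈ β i) := by
        rintro ⟨i, j⟩ hij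
        obtain ⟨b, hb, hb'⟩ := Finset.not_disjoint_iff.1 (mem_filter.1 hij).2
        exact mem_biUnion.2 ⟨b, mem_univ _, mem_product.2
          ⟨mem_filter.2 ⟨mem_univ _, hb⟩, mem_filter.2 ⟨mem_univ _, hb'⟩⟩⟩
      refine (card_le_card h2).trans (card_biUnion_le.trans (Finset.sum_le_sum fun b _ => ?_))
      rw [card_product]
      exact Nat.mul_le_mul_left _ (hrow b)
    have h2 : ∑ b : Fin R, (univ.filter fun i : Fin m => b ∈ β i).card = I.card := by
      have h3 : I.card = ∑ b : Fin R, (I.filter fun p => p.2 = b).card :=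
        Finset.card_eq_sum_card_fiberwise fun p _ => mem_coe.2 (mem_univ _)
      rw [h3]
      refine Finset.sum_congr rfl fun b _ => ?_
      refine Finset.card_bij' (fun i _ => (i, b)) (fun p _ => p.1) ?_ ?_ ?_ ?_
      · intro i hi
        exact mem_filter.2 ⟨mem_filter.2 ⟨mem_univ _, (mem_filter.1 hi).2⟩, rfl⟩
      · rintro ⟨i, b'⟩ hp
        obtain ⟨hp', hj⟩ := mem_filter.1 hp
        simp only at hj
        have h4 := (mem_filter.1 hp').2
        simp only at h4
        rw [hj] at h4
        exact mem_filter.2 ⟨mem_univ _, h4⟩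
      · intro i _
        rfl
      · rintro ⟨i, b'⟩ hp
        obtain ⟨-, hj⟩ := mem_filter.1 hp
        simp only at hj
        rw [hj]
    refine h1.trans ?_
    rw [← Finset.sum_mul, h2, mul_comm]
    exact Nat.mul_le_mul_left _ (hIT.trans hT)
  -- double counting
  let XA : (Fin R → Bool) → Finset (Fin m) := fun χ => univ.filter fun i => ∀ b ∈ β i, χ b = true
  let XB : (Fin R → Bool) → Finset (Fin m) := fun χ => univ.filter fun i => ∀ b ∈ β i, χ b = false
  have hsum : 2 ^ R * m ^ 2 ≤ 8 * 16 ^ k * ∑ χ : Fin R → Bool, (XA χ).card * (XB χ).card := by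
    have h1 : ∑ χ : Fin R → Bool, (XA χ).card * (XB χ).card =
        ∑ p : Fin m × Fin m, (univ.filter fun χ : Fin R → Bool =>
          (∀ b ∈ β p.1, χ b = true) ∧ ∀ b ∈ β p.2, χ b = false).card := by
      have h2 : ∀ χ : Fin R → Bool, (XA χ).card * (XB χ).card =
          ∑ p : Fin m × Fin m, if (∀ b ∈ β p.1, χ b = true) ∧ ∀ b ∈ β p.2, χ b = false
            then 1 else 0 := by
        intro χ
        rw [← card_product, ← Finset.card_filter]
        congr 1
        ext ⟨i, j⟩
        simp only [XA, XB, mem_product, mem_filter, mem_univ, true_and]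
      rw [Finset.sum_congr rfl fun χ _ => h2 χ, Finset.sum_comm]
      refine Finset.sum_congr rfl fun p _ => ?_
      rw [Finset.card_filter]
    rw [h1]
    have h3 : ∀ p ∈ (G ×ˢ G) \ Bad, 2 ^ R ≤ 16 ^ k * (univ.filter fun χ : Fin R → Bool =>
          (∀ b ∈ β p.1, χ b = true) ∧ ∀ b ∈ β p.2, χ b = false).card := by
      intro p hp
      obtain ⟨hp1, hp2⟩ := mem_sdiff.1 hp
      have hdis : Disjoint (β p.1) (β p.2) := by
        by_contra hcon
        exact hp2 (mem_filter.2 ⟨mem_univ _, hcon⟩)
      rw [← card_colour _ _ hdis, mul_comm]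
      refine Nat.mul_le_mul_right _ ?_
      have h4 : (16 : ℕ) ^ k = 2 ^ (4 * k) := by rw [pow_mul]; norm_num
      rw [h4]
      refine Nat.pow_le_pow_right (by norm_num) ?_
      have h5 := (mem_filter.1 (mem_product.1 hp1).1).2
      have h6 := (mem_filter.1 (mem_product.1 hp1).2).2
      omega
    have h4 : m ^ 2 ≤ 8 * ((G ×ˢ G) \ Bad).card := by
      have h5 : (G ×ˢ G).card ≤ ((G ×ˢ G) \ Bad).card + Bad.card := by
        rw [← Finset.card_sdiff_add_card_inter (G ×ˢ G) Bad]
        exact Nat.add_le_add_left (card_le_card inter_subset_right) _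
      rw [card_product] at h5
      have h6 : m ^ 2 ≤ 4 * (G.card * G.card) := by nlinarith
      have h7 : 8 * (L * (k * m)) = m ^ 2 := by
        calc 8 * (L * (k * m)) = (8 * k * L) * m := by ring
          _ = m ^ 2 := by rw [← hm]; ring
      nlinarith
    calc 2 ^ R * m ^ 2 ≤ 2 ^ R * (8 * ((G ×ˢ G) \ Bad).card) := Nat.mul_le_mul_left _ h4
      _ = 8 * ∑ p ∈ (G ×ˢ G) \ Bad, 2 ^ R := by
          rw [Finset.sum_const, smul_eq_mul]; ring
      _ ≤ 8 * ∑ p ∈ (G ×ˢ G) \ Bad, 16 ^ k * (univ.filter fun χ : Fin R → Bool =>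
          (∀ b ∈ β p.1, χ b = true) ∧ ∀ b ∈ β p.2, χ b = false).card :=
          Nat.mul_le_mul_left _ (Finset.sum_le_sum h3)
      _ ≤ 8 * ∑ p : Fin m × Fin m, 16 ^ k * (univ.filter fun χ : Fin R → Bool =>
          (∀ b ∈ β p.1, χ b = true) ∧ ∀ b ∈ β p.2, χ b = false).card :=
          Nat.mul_le_mul_left _ (Finset.sum_le_sum_of_subset (Finset.subset_univ _))
      _ = _ := by rw [← Finset.mul_sum]; ring
  -- one good colouring
  obtain ⟨χ, hχ⟩ : ∃ χ : Fin R → Bool, m ^ 2 ≤ 8 * 16 ^ k * ((XA χ).card * (XB χ).card) := by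
    by_contra hcon
    push Not at hcon
    have h1 : ∑ χ : Fin R → Bool, 8 * 16 ^ k * ((XA χ).card * (XB χ).card) <
        ∑ χ : Fin R → Bool, m ^ 2 :=
      Finset.sum_lt_sum_of_nonempty univ_nonempty fun χ _ => hcon χ
    rw [← Finset.mul_sum, Finset.sum_const, card_univ, Fintype.card_fun, Fintype.card_fin,
      Fintype.card_bool, smul_eq_mul] at h1
    omega
  have hA : (XA χ).card ≤ m := (card_le_univ _).trans (by rw [Fintype.card_fin])
  have hB : (XB χ).card ≤ m := (card_le_univ _).trans (by rw [Fintype.card_fin])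
  refine ⟨fun b => if h : b < R then χ ⟨b, h⟩ else true, ?_, ?_⟩
  · have h1 : XA χ ⊆ univ.filter fun i : Fin m => ∀ t < T, pos t = i →
        (if h : t / L < R then χ ⟨t / L, h⟩ else true) = true := by
      intro i hi
      refine mem_filter.2 ⟨mem_univ _, fun t ht hti => ?_⟩
      rw [dif_pos (hblk t ht)]
      exact (mem_filter.1 hi).2 _ (mem_filter.2 ⟨mem_univ _, t, ht, rfl, hti⟩)
    refine le_trans ?_ (Nat.mul_le_mul_left _ (card_le_card h1))
    have h2 : m * m ≤ m * (8 * 16 ^ k * (XA χ).card) := by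
      calc m * m = m ^ 2 := by ring
        _ ≤ 8 * 16 ^ k * ((XA χ).card * (XB χ).card) := hχ
        _ ≤ 8 * 16 ^ k * ((XA χ).card * m) :=
          Nat.mul_le_mul_left _ (Nat.mul_le_mul_left _ hB)
        _ = _ := by ring
    exact Nat.le_of_mul_le_mul_left h2 hmpos
  · have h1 : XB χ ⊆ univ.filter fun i : Fin m => ∀ t < T, pos t = i →
        (if h : t / L < R then χ ⟨t / L, h⟩ else true) = false := by
      intro i hi
      refine mem_filter.2 ⟨mem_univ _, fun t ht hti => ?_⟩
      rw [dif_pos (hblk t ht)]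
      exact (mem_filter.1 hi).2 _ (mem_filter.2 ⟨mem_univ _, t, ht, rfl, hti⟩)
    refine le_trans ?_ (Nat.mul_le_mul_left _ (card_le_card h1))
    have h2 : m * m ≤ m * (8 * 16 ^ k * (XB χ).card) := by
      calc m * m = m ^ 2 := by ring
        _ ≤ 8 * 16 ^ k * ((XA χ).card * (XB χ).card) := hχ
        _ ≤ 8 * 16 ^ k * (m * (XB χ).card) :=
          Nat.mul_le_mul_left _ (Nat.mul_le_mul_right _ hA)
        _ = _ := by ring
    exact Nat.le_of_mul_le_mul_left h2 hmpos

end Pool.Agent.Y601.OB
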