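import Mathlib

set_option autoImplicit false

/-!
3-CNF formulas as lists of clauses, and machines which read the clauses in a fixed order.
-/

namespace Pool.Agent.Y601.OB

open Finset

/-- The number of clauses of the formula `w` which are true at the assignment `z`. The formula is a
list of `m` clauses; the literal number `s` (`s = 0, 1, 2`) of clause `i` belongs to the variable
`(w i s).1`, and it is true if the value of this variable is the bit `(w i s).2`. -/
def numTrue {m n : ℕ} (w : Fin m → Fin 3 → Fin n × Bool) (z : Fin n → Bool) : ℕ :=
  (univ.filter fun i => ∃ s, z (w i s).1 = (w i s).2).card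

/-- A function `F` of the formula separates the satisfiable formulas (`F > 0`) from the formulas in
which every assignment violates at least `ε m` of the `m` clauses (`F ≤ 0`). Only formulas are
considered in which the three variables of each clause are different. -/
def Separates {m n : ℕ} (ε : ℝ) (F : (Fin m → Fin 3 → Fin n × Bool) → ℝ) : Prop :=
  ∀ w : Fin m → Fin 3 → Fin n × Bool, (∀ i, Function.Injective fun s => (w i s).1) →
    ((∃ z, numTrue w z = m) → 0 < F w) ∧
    ((∀ z, (numTrue w z : ℝ) ≤ (1 - ε) * m) → F w ≤ 0)

/-- The state of a weighted program of width `D` after `t` steps. The state is a vector with `D`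
real entries. In step `t` the program reads the clause number `pos t` and multiplies the state by
the matrix `A t c`, where `c` is the clause. (Probabilistic programs with `D` states: stochastic
matrices.) -/
def run {m n D : ℕ} (pos : ℕ → Fin m) (A : ℕ → (Fin 3 → Fin n × Bool) → Matrix (Fin D) (Fin D) ℝ)
    (v : Fin D → ℝ) (w : Fin m → Fin 3 → Fin n × Bool) : ℕ → Fin D → ℝ
  | 0 => v
  | t + 1 => (A t (w (pos t))).mulVec (run pos A v w t)

/-- The state of a quantum machine with a memory of dimension `q` (`q = 2 ^ S` for `S` qubits)
after `t` steps. The state is a `q × q` matrix, for instance a density matrix. In step `t` the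
machine reads the clause number `pos t` and applies the completely positive map with the Kraus
operators `K t c j`, where `c` is the clause. -/
noncomputable def qrun {m n q J : ℕ} (pos : ℕ → Fin m)
    (K : ℕ → (Fin 3 → Fin n × Bool) → Fin J → Matrix (Fin q) (Fin q) ℂ)
    (ρ : Matrix (Fin q) (Fin q) ℂ) (w : Fin m → Fin 3 → Fin n × Bool) :
    ℕ → Matrix (Fin q) (Fin q) ℂ
  | 0 => ρ
  | t + 1 => ∑ j, K t (w (pos t)) j * qrun pos K ρ w t * (K t (w (pos t)) j).conjTranspose

end Pool.Agent.Y601.OB
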