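import Mathlib

set_option autoImplicit false

/-!
The rank of the value of a program whose blocks of steps depend on one of two arguments only.
-/

namespace Pool.Agent.Y601.OB

open Finset

variable {X Y : Type} {R : Type} [CommRing R]

/-- a sum of `N` products -/
def RankLe (N : ℕ) (F : X → Y → R) : Prop :=
  ∃ (f : Fin N → X → R) (g : Fin N → Y → R), ∀ x y, F x y = ∑ κ, f κ x * g κ y

theorem rankLe_const (c : R) : RankLe 1 (fun (_ : X) (_ : Y) => c) :=
  ⟨fun _ _ => c, fun _ _ => 1, fun x y => by simp⟩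

theorem RankLe.mulX {N : ℕ} {F : X → Y → R} (h : RankLe N F) (φ : X → R) :
    RankLe N fun x y => φ x * F x y := by
  obtain ⟨f, g, h⟩ := h
  refine ⟨fun κ x => φ x * f κ x, g, fun x y => ?_⟩
  beta_reduce
  rw [h, Finset.mul_sum]
  exact Finset.sum_congr rfl fun κ _ => by ring

theorem RankLe.mulY {N : ℕ} {F : X → Y → R} (h : RankLe N F) (φ : Y → R) :
    RankLe N fun x y => φ y * F x y := by
  obtain ⟨f, g, h⟩ := h
  refine ⟨f, fun κ y => φ y * g κ y, fun x y => ?_⟩
  beta_reduce
  rw [h, Finset.mul_sum]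
  exact Finset.sum_congr rfl fun κ _ => by ring

theorem RankLe.sum {N : ℕ} {ι : Type} [Fintype ι] {F : ι → X → Y → R}
    (h : ∀ j, RankLe N (F j)) : RankLe (Fintype.card ι * N) fun x y => ∑ j, F j x y := by
  choose f g h using h
  let e : Fin (Fintype.card ι * N) ≃ ι × Fin N :=
    finProdFinEquiv.symm.trans (Equiv.prodCongr (Fintype.equivFin ι).symm (Equiv.refl _))
  refine ⟨fun κ x => f (e κ).1 (e κ).2 x, fun κ y => g (e κ).1 (e κ).2 y, fun x y => ?_⟩
  rw [Equiv.sum_comp e fun p => f p.1 p.2 x * g p.1 p.2 y, Fintype.sum_prod_type]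
  exact Finset.sum_congr rfl fun j _ => h j x y

variable {ι : Type} [Fintype ι]

/-- the states of a program with the transition matrices `M t` -/
def state (M : ℕ → X → Y → Matrix ι ι R) (v : ι → R) (x : X) (y : Y) : ℕ → ι → R
  | 0 => v
  | t + 1 => (M t x y).mulVec (state M v x y t)

/-- a block of steps which depend on the first argument only -/
theorem blockX [DecidableEq ι] (M : ℕ → X → Y → Matrix ι ι R) (v : ι → R) (t₀ L : ℕ)
    (h : ∀ l < L, ∃ Φ : X → Matrix ι ι R, ∀ x y, M (t₀ + l) x y = Φ x) :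
    ∃ Φ : X → Matrix ι ι R, ∀ x y, state M v x y (t₀ + L) = (Φ x).mulVec (state M v x y t₀) := by
  induction L with
  | zero => exact ⟨fun _ => 1, fun x y => by rw [add_zero, Matrix.one_mulVec]⟩
  | succ L ih =>
    obtain ⟨Φ, hΦ⟩ := ih fun l hl => h l (by omega)
    obtain ⟨Ψ, hΨ⟩ := h L (by omega)
    refine ⟨fun x => Ψ x * Φ x, fun x y => ?_⟩
    rw [← add_assoc, state, hΨ, hΦ, Matrix.mulVec_mulVec]

/-- a block of steps which depend on the second argument only -/
theorem blockY [DecidableEq ι] (M : ℕ → X → Y → Matrix ι ι R) (v : ι → R) (t₀ L : ℕ)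
    (h : ∀ l < L, ∃ Φ : Y → Matrix ι ι R, ∀ x y, M (t₀ + l) x y = Φ y) :
    ∃ Φ : Y → Matrix ι ι R, ∀ x y, state M v x y (t₀ + L) = (Φ y).mulVec (state M v x y t₀) := by
  induction L with
  | zero => exact ⟨fun _ => 1, fun x y => by rw [add_zero, Matrix.one_mulVec]⟩
  | succ L ih =>
    obtain ⟨Φ, hΦ⟩ := ih fun l hl => h l (by omega)
    obtain ⟨Ψ, hΨ⟩ := h L (by omega)
    refine ⟨fun x => Ψ x * Φ x, fun x y => ?_⟩
    rw [← add_assoc, state, hΨ, hΦ, Matrix.mulVec_mulVec]

/-- **The rank of the state after `B` blocks.** -/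
theorem rank_state [DecidableEq ι] (M : ℕ → X → Y → Matrix ι ι R) (v : ι → R) (χ : ℕ → Bool)
    (L : ℕ) (hL : 1 ≤ L) (B : ℕ)
    (hX : ∀ t < B * L, χ (t / L) = true → ∃ Φ : X → Matrix ι ι R, ∀ x y, M t x y = Φ x)
    (hY : ∀ t < B * L, χ (t / L) = false → ∃ Φ : Y → Matrix ι ι R, ∀ x y, M t x y = Φ y)
    (i : ι) : RankLe (Fintype.card ι ^ B) fun x y => state M v x y (B * L) i := by
  induction B generalizing i with
  | zero =>
    rw [pow_zero]
    simpa [state] using rankLe_const (X := X) (Y := Y) (v i)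
  | succ B ih =>
    have ih' := ih (fun t ht => hX t (ht.trans_le (Nat.mul_le_mul_right _ (Nat.le_succ _))))
      (fun t ht => hY t (ht.trans_le (Nat.mul_le_mul_right _ (Nat.le_succ _))))
    have hdiv : ∀ l < L, (B * L + l) / L = B := by
      intro l hl
      rw [mul_comm, Nat.mul_add_div (by omega), Nat.div_eq_of_lt hl, add_zero]
    have hlt : ∀ l < L, B * L + l < (B + 1) * L := by
      intro l hl
      rw [add_mul, one_mul]
      omega
    rw [pow_succ, mul_comm (Fintype.card ι ^ B)]
    cases hχ : χ B with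
    | true =>
      obtain ⟨Φ, hΦ⟩ := blockX M v (B * L) L fun l hl => hX _ (hlt l hl) (by rw [hdiv l hl, hχ])
      have h1 : (fun x y => state M v x y ((B + 1) * L) i) =
          fun x y => ∑ j, Φ x i j * state M v x y (B * L) j := by
        funext x y
        rw [add_mul, one_mul, hΦ]
        rfl
      rw [h1]
      exact RankLe.sum fun j => (ih' j).mulX fun x => Φ x i j
    | false =>
      obtain ⟨Φ, hΦ⟩ := blockY M v (B * L) L fun l hl => hY _ (hlt l hl) (by rw [hdiv l hl, hχ])
      have h1 : (fun x y => state M v x y ((B + 1) * L) i) =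
          fun x y => ∑ j, Φ y i j * state M v x y (B * L) j := by
        funext x y
        rw [add_mul, one_mul, hΦ]
        rfl
      rw [h1]
      exact RankLe.sum fun j => (ih' j).mulY fun y => Φ y i j

/-- programs which stop after `T` steps -/
theorem state_stop [DecidableEq ι] (M : ℕ → X → Y → Matrix ι ι R) (v : ι → R) (x : X) (y : Y)
    (T S : ℕ) (hTS : T ≤ S) :
    state (fun t x y => if t < T then M t x y else 1) v x y S = state M v x y T := by
  induction S with
  | zero =>
    obtain rfl : T = 0 := by omega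
    rfl
  | succ S ih =>
    rcases Nat.eq_or_lt_of_le hTS with h | h
    · subst h
      have h1 : ∀ U ≤ S + 1, state (fun t x y => if t < S + 1 then M t x y else 1) v x y U =
          state M v x y U := by
        intro U hU
        induction U with
        | zero => rfl
        | succ U ihU =>
          rw [state, state, if_pos (by omega), ihU (by omega)]
      exact h1 _ le_rfl
    · rw [state, if_neg (by omega), Matrix.one_mulVec]
      exact ih (by omega)

/-- **The rank of the value of a program with `T` steps.** -/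
theorem rank_value [DecidableEq ι] (M : ℕ → X → Y → Matrix ι ι R) (u v : ι → R) (χ : ℕ → Bool)
    (L : ℕ) (hL : 1 ≤ L) (B T : ℕ) (hT : T ≤ B * L)
    (hX : ∀ t < T, χ (t / L) = true → ∃ Φ : X → Matrix ι ι R, ∀ x y, M t x y = Φ x)
    (hY : ∀ t < T, χ (t / L) = false → ∃ Φ : Y → Matrix ι ι R, ∀ x y, M t x y = Φ y) :
    RankLe (Fintype.card ι ^ (B + 1)) fun x y => u ⬝ᵥ state M v x y T := by
  have h1 := fun i => rank_state (fun t x y => if t < T then M t x y else 1) v χ L hL B
    (fun t _ hχ => by
      by_cases h : t < T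
      · simpa [h] using hX t h hχ
      · exact ⟨fun _ => 1, fun x y => by simp [h]⟩)
    (fun t _ hχ => by
      by_cases h : t < T
      · simpa [h] using hY t h hχ
      · exact ⟨fun _ => 1, fun x y => by simp [h]⟩) i
  rw [pow_succ, mul_comm (Fintype.card ι ^ B)]
  have h2 : (fun x y => u ⬝ᵥ state M v x y T) = fun x y => ∑ i, u i *
      state (fun t x y => if t < T then M t x y else 1) v x y (B * L) i := by
    funext x y
    rw [state_stop M v x y T _ hT]
    rfl
  rw [h2]
  exact RankLe.sum fun i => (h1 i).mulX fun _ => u i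

end Pool.Agent.Y601.OB
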