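import Pool.Agent.Y601.GS.Chars
import Pool.Agent.Y601.OB.Defs
import Pool.Agent.Y601.OB.Rank

set_option autoImplicit false
set_option linter.unusedSectionVars false

/-!
Formulas of which one player knows the clauses which fix bits and the other one the equations.
-/

namespace Pool.Agent.Y601.OB

open Finset Pool.Agent.Y601.GS

variable {n₀ m₀ : ℕ}

/-- the variables: those of the system, the copies of the bits, one auxiliary variable for each
equation, and three further ones -/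
abbrev Var (n₀ m₀ : ℕ) := Fin n₀ ⊕ (Fin m₀ × Bool) ⊕ Fin m₀ ⊕ Fin 3

/-- the clauses of the first player -/
abbrev CellA (m₀ : ℕ) := (Fin m₀ × Bool) × (Bool × Bool)

/-- the clauses of the second player -/
abbrev CellB (m₀ : ℕ) := Fin m₀ × Bool × (Bool × Bool)

/-- the variables of the system -/
def vS (v : Fin n₀) : Var n₀ m₀ := Sum.inl v
/-- the copies of the bits -/
def vU (p : Fin m₀ × Bool) : Var n₀ m₀ := Sum.inr (Sum.inl p)
/-- the auxiliary variables -/
def vZ (i : Fin m₀) : Var n₀ m₀ := Sum.inr (Sum.inr (Sum.inl i))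
/-- further variables -/
def vP (s : Fin 3) : Var n₀ m₀ := Sum.inr (Sum.inr (Sum.inr s))

/-- a clause of the first player: the copy of the bit `x p` is equal to it -/
def clA (x : Fin m₀ × Bool → Bool) (a : CellA m₀) : Fin 3 → Var n₀ m₀ × Bool :=
  ![(vU a.1, x a.1), (vP 0, a.2.1), (vP 1, a.2.2)]

/-- a clause of the second player: one of the two equations for equation `i` -/
def clB (c : Fin m₀ → Fin 3 → Fin n₀) (y : (Fin m₀ → Bool) × (Fin m₀ → Bool)) (b : CellB m₀) :
    Fin 3 → Var n₀ m₀ × Bool :=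
  if b.2.1 = true then
    ![(vS (c b.1 0), !b.2.2.1), (vS (c b.1 1), !b.2.2.2), (vZ b.1, b.2.2.1 ^^ b.2.2.2)]
  else
    ![(vS (c b.1 2), !b.2.2.1), (vU (b.1, y.1 b.1), !b.2.2.2),
      (vZ b.1, (b.2.2.1 ^^ b.2.2.2) ^^ y.2 b.1)]

/-- a clause without meaning -/
def clD : Fin 3 → Var n₀ m₀ × Bool := ![(vP 0, true), (vP 1, true), (vP 2, true)]

/-- the clause is true -/
def Sat {V : Type} (cl : Fin 3 → V × Bool) (z : V → Bool) : Prop := ∃ s, z (cl s).1 = (cl s).2

theorem sat_iff {V : Type} (cl : Fin 3 → V × Bool) (z : V → Bool) :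
    Sat cl z ↔ (z (cl 0).1 = (cl 0).2 ∨ z (cl 1).1 = (cl 1).2 ∨ z (cl 2).1 = (cl 2).2) := by
  unfold Sat
  constructor
  · rintro ⟨s, hs⟩
    fin_cases s
    · exact Or.inl hs
    · exact Or.inr (Or.inl hs)
    · exact Or.inr (Or.inr hs)
  · rintro (h | h | h)
    · exact ⟨0, h⟩
    · exact ⟨1, h⟩
    · exact ⟨2, h⟩

theorem sat_clA (x : Fin m₀ × Bool → Bool) (a : CellA m₀) (z : Var n₀ m₀ → Bool) :
    Sat (clA x a) z ↔ (z (vU a.1) = x a.1 ∨ z (vP 0) = a.2.1 ∨ z (vP 1) = a.2.2) := by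
  rw [sat_iff]; rfl

theorem sat_clB_true (c : Fin m₀ → Fin 3 → Fin n₀) (y : (Fin m₀ → Bool) × (Fin m₀ → Bool))
    (i : Fin m₀) (q : Bool × Bool) (z : Var n₀ m₀ → Bool) :
    Sat (clB c y (i, true, q)) z ↔ (z (vS (c i 0)) = !q.1 ∨ z (vS (c i 1)) = !q.2 ∨
      z (vZ i) = (q.1 ^^ q.2)) := by
  rw [sat_iff]
  unfold clB
  rw [if_pos rfl]
  rfl

theorem sat_clB_false (c : Fin m₀ → Fin 3 → Fin n₀) (y : (Fin m₀ → Bool) × (Fin m₀ → Bool))
    (i : Fin m₀) (q : Bool × Bool) (z : Var n₀ m₀ → Bool) :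
    Sat (clB c y (i, false, q)) z ↔ (z (vS (c i 2)) = !q.1 ∨ z (vU (i, y.1 i)) = !q.2 ∨
      z (vZ i) = ((q.1 ^^ q.2) ^^ y.2 i)) := by
  rw [sat_iff]
  unfold clB
  rw [if_neg (by simp)]
  rfl

theorem inj3 {V : Type} (cl : Fin 3 → V × Bool) (h01 : (cl 0).1 ≠ (cl 1).1)
    (h02 : (cl 0).1 ≠ (cl 2).1) (h12 : (cl 1).1 ≠ (cl 2).1) :
    Function.Injective fun s => (cl s).1 := by
  intro s t hst
  fin_cases s <;> fin_cases t
  · rfl
  · exact absurd hst h01
  · exact absurd hst h02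
  · exact absurd hst.symm h01
  · rfl
  · exact absurd hst h12
  · exact absurd hst.symm h02
  · exact absurd hst.symm h12
  · rfl

theorem inj_clA (x : Fin m₀ × Bool → Bool) (a : CellA m₀) :
    Function.Injective fun s => (clA (n₀ := n₀) x a s).1 := by
  refine inj3 _ ?_ ?_ ?_
  · intro h; simp [clA, vU, vP] at h
  · intro h; simp [clA, vU, vP] at h
  · intro h; simp [clA, vP] at h

theorem inj_clD : Function.Injective fun s => (clD (n₀ := n₀) (m₀ := m₀) s).1 := by
  refine inj3 _ ?_ ?_ ?_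
  · intro h; simp [clD, vP] at h
  · intro h; simp [clD, vP] at h
  · intro h; simp [clD, vP] at h

theorem inj_clB (c : Fin m₀ → Fin 3 → Fin n₀) (hc : ∀ i, Function.Injective (c i))
    (y : (Fin m₀ → Bool) × (Fin m₀ → Bool)) (b : CellB m₀) :
    Function.Injective fun s => (clB c y b s).1 := by
  unfold clB
  split_ifs
  · refine inj3 _ ?_ ?_ ?_
    · intro h
      simp only [Matrix.cons_val_zero, Matrix.cons_val_one, vS, Sum.inl.injEq] at h
      exact absurd (hc _ h) (by decide)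
    · intro h; simp [vS, vZ] at h
    · intro h; simp [vS, vZ] at h
  · refine inj3 _ ?_ ?_ ?_
    · intro h; simp [vS, vU] at h
    · intro h; simp [vS, vZ] at h
    · intro h; simp [vU, vZ] at h

/-- completeness -/
theorem sat_all (c : Fin m₀ → Fin 3 → Fin n₀) (x : Fin m₀ × Bool → Bool)
    (y : (Fin m₀ → Bool) × (Fin m₀ → Bool)) (z₀ : Fin n₀ → Bool) (h : comb x y = ev c z₀) :
    ∃ z : Var n₀ m₀ → Bool, (∀ a, Sat (clA x a) z) ∧ (∀ b, Sat (clB c y b) z) ∧
      Sat (clD (n₀ := n₀) (m₀ := m₀)) z := by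
  refine ⟨Sum.elim z₀ (Sum.elim x (Sum.elim (fun i => z₀ (c i 0) ^^ z₀ (c i 1)) fun _ => true)),
    fun a => ?_, fun b => ?_, ?_⟩
  · rw [sat_clA]
    exact Or.inl rfl
  · obtain ⟨i, b, q⟩ := b
    cases b with
    | true =>
      rw [sat_clB_true]
      change z₀ (c i 0) = _ ∨ z₀ (c i 1) = _ ∨ (z₀ (c i 0) ^^ z₀ (c i 1)) = _
      have : ∀ a b p q : Bool, a = !p ∨ b = !q ∨ (a ^^ b) = (p ^^ q) := by decide
      exact this _ _ _ _
    | false =>
      rw [sat_clB_false]
      change z₀ (c i 2) = _ ∨ x (i, y.1 i) = _ ∨ (z₀ (c i 0) ^^ z₀ (c i 1)) = _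
      have h1 := congrFun h i
      unfold comb ev at h1
      have : ∀ a b d u w p q : Bool, (u ^^ w) = ((a ^^ b) ^^ d) →
          (d = !p ∨ u = !q ∨ (a ^^ b) = ((p ^^ q) ^^ w)) := by decide
      exact this _ _ _ _ _ _ _ h1
  · rw [sat_iff]
    exact Or.inl rfl

/-- soundness for one equation -/
theorem viol_one (c : Fin m₀ → Fin 3 → Fin n₀) (x : Fin m₀ × Bool → Bool)
    (y : (Fin m₀ → Bool) × (Fin m₀ → Bool)) (z : Var n₀ m₀ → Bool) (i : Fin m₀)
    (h : ev c (fun v => z (vS v)) i ≠ comb x y i) :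
    (∃ a : CellA m₀, a.1.1 = i ∧ ¬ Sat (clA x a) z) ∨
      ∃ b : CellB m₀, b.1 = i ∧ ¬ Sat (clB c y b) z := by
  by_contra hcon
  push Not at hcon
  obtain ⟨hA, hB⟩ := hcon
  have h1 := hA ((i, y.1 i), (!z (vP 0), !z (vP 1))) rfl
  rw [sat_clA] at h1
  have h2 := hB (i, true, (z (vS (c i 0)), z (vS (c i 1)))) rfl
  rw [sat_clB_true] at h2
  have h3 := hB (i, false, (z (vS (c i 2)), z (vU (i, y.1 i)))) rfl
  rw [sat_clB_false] at h3
  simp only at h1 h2 h3
  refine h ?_
  unfold ev comb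
  have : ∀ a b d e u w p q x : Bool, (u = x ∨ p = !p ∨ q = !q) → (a = !a ∨ b = !b ∨ e = (a ^^ b)) →
      (d = !d ∨ u = !u ∨ e = ((d ^^ u) ^^ w)) → ((a ^^ b) ^^ d) = (x ^^ w) := by decide
  exact this _ _ _ _ _ _ _ _ _ h1 h2 h3

variable {m n : ℕ}

/-- the formula on `m` cells and `n` variables -/
noncomputable def form (c : Fin m₀ → Fin 3 → Fin n₀) (e : CellA m₀ ⊕ CellB m₀ → Fin m)
    (V : Var n₀ m₀ → Fin n) (x : Fin m₀ × Bool → Bool) (y : (Fin m₀ → Bool) × (Fin m₀ → Bool)) :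
    Fin m → Fin 3 → Fin n × Bool := fun i s =>
  let cl := Function.extend e (Sum.elim (clA x) (clB c y)) (fun _ => clD) i s
  (V cl.1, cl.2)

theorem form_e (c : Fin m₀ → Fin 3 → Fin n₀) {e : CellA m₀ ⊕ CellB m₀ → Fin m}
    (he : Function.Injective e) (V : Var n₀ m₀ → Fin n) (x : Fin m₀ × Bool → Bool)
    (y : (Fin m₀ → Bool) × (Fin m₀ → Bool)) (k : CellA m₀ ⊕ CellB m₀) (s : Fin 3) :
    form c e V x y (e k) s =
      (V (Sum.elim (clA x) (clB c y) k s).1, (Sum.elim (clA x) (clB c y) k s).2) := by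
  unfold form
  simp only
  rw [he.extend_apply]

theorem form_not (c : Fin m₀ → Fin 3 → Fin n₀) {e : CellA m₀ ⊕ CellB m₀ → Fin m}
    (V : Var n₀ m₀ → Fin n) (x : Fin m₀ × Bool → Bool)
    (y : (Fin m₀ → Bool) × (Fin m₀ → Bool)) (i : Fin m) (hi : ¬ ∃ k, e k = i) (s : Fin 3) :
    form c e V x y i s = (V (clD (n₀ := n₀) (m₀ := m₀) s).1, (clD (n₀ := n₀) (m₀ := m₀) s).2) := by
  unfold form
  simp only
  rw [Function.extend_apply' _ _ _ hi]

theorem form_proper (c : Fin m₀ → Fin 3 → Fin n₀) (hc : ∀ i, Function.Injective (c i))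
    {e : CellA m₀ ⊕ CellB m₀ → Fin m} (he : Function.Injective e) {V : Var n₀ m₀ → Fin n}
    (hV : Function.Injective V) (x : Fin m₀ × Bool → Bool)
    (y : (Fin m₀ → Bool) × (Fin m₀ → Bool)) (i : Fin m) :
    Function.Injective fun s => (form c e V x y i s).1 := by
  by_cases hi : ∃ k, e k = i
  · obtain ⟨k, rfl⟩ := hi
    intro s t hst
    simp only [form_e c he] at hst
    have h1 := hV hst
    cases k with
    | inl a => exact inj_clA x a h1
    | inr b => exact inj_clB c hc y b h1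
  · intro s t hst
    simp only [form_not c V x y i hi] at hst
    exact inj_clD (hV hst)

/-- dependence on the first argument only -/
theorem form_X (c : Fin m₀ → Fin 3 → Fin n₀) {e : CellA m₀ ⊕ CellB m₀ → Fin m}
    (he : Function.Injective e) (V : Var n₀ m₀ → Fin n) (i : Fin m) (hi : ∀ b, e (Sum.inr b) ≠ i)
    (x : Fin m₀ × Bool → Bool) (y y' : (Fin m₀ → Bool) × (Fin m₀ → Bool)) :
    form c e V x y i = form c e V x y' i := by
  funext s
  by_cases h : ∃ k, e k = i
  · obtain ⟨k, rfl⟩ := h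
    rw [form_e c he, form_e c he]
    cases k with
    | inl a => rfl
    | inr b => exact absurd rfl (hi b)
  · rw [form_not c V x y i h, form_not c V x y' i h]

/-- dependence on the second argument only -/
theorem form_Y (c : Fin m₀ → Fin 3 → Fin n₀) {e : CellA m₀ ⊕ CellB m₀ → Fin m}
    (he : Function.Injective e) (V : Var n₀ m₀ → Fin n) (i : Fin m) (hi : ∀ a, e (Sum.inl a) ≠ i)
    (x x' : Fin m₀ × Bool → Bool) (y : (Fin m₀ → Bool) × (Fin m₀ → Bool)) :
    form c e V x y i = form c e V x' y i := by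
  funext s
  by_cases h : ∃ k, e k = i
  · obtain ⟨k, rfl⟩ := h
    rw [form_e c he, form_e c he]
    cases k with
    | inl a => exact absurd rfl (hi a)
    | inr b => rfl
  · rw [form_not c V x y i h, form_not c V x' y i h]

/-- completeness -/
theorem numTrue_form (c : Fin m₀ → Fin 3 → Fin n₀) {e : CellA m₀ ⊕ CellB m₀ → Fin m}
    (he : Function.Injective e) {V : Var n₀ m₀ → Fin n} (hV : Function.Injective V)
    (x : Fin m₀ × Bool → Bool) (y : (Fin m₀ → Bool) × (Fin m₀ → Bool)) (z₀ : Fin n₀ → Bool)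
    (h : comb x y = ev c z₀) : ∃ z, numTrue (form c e V x y) z = m := by
  obtain ⟨z, hA, hB, hD⟩ := sat_all c x y z₀ h
  refine ⟨Function.extend V z fun _ => true, ?_⟩
  unfold numTrue
  rw [Finset.filter_true_of_mem, card_univ, Fintype.card_fin]
  intro i _
  by_cases hi : ∃ k, e k = i
  · obtain ⟨k, rfl⟩ := hi
    have h1 : Sat (Sum.elim (clA x) (clB c y) k) z := by
      cases k with
      | inl a => exact hA a
      | inr b => exact hB b
    obtain ⟨s, hs⟩ := h1
    refine ⟨s, ?_⟩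
    rw [form_e c he]
    simp only
    rw [hV.extend_apply]
    exact hs
  · obtain ⟨s, hs⟩ := hD
    refine ⟨s, ?_⟩
    rw [form_not c V x y i hi]
    simp only
    rw [hV.extend_apply]
    exact hs

/-- soundness -/
theorem numTrue_le (c : Fin m₀ → Fin 3 → Fin n₀) {e : CellA m₀ ⊕ CellB m₀ → Fin m}
    (he : Function.Injective e) (V : Var n₀ m₀ → Fin n)
    (x : Fin m₀ × Bool → Bool) (y : (Fin m₀ → Bool) × (Fin m₀ → Bool)) (z : Fin n → Bool) :
    numTrue (form c e V x y) z + vio c (comb x y) (fun v => z (V (vS v))) ≤ m := by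
  classical
  have h0 : ∀ i ∈ univ.filter (fun j => ev c (fun v => z (V (vS v))) j ≠ comb x y j),
      ∃ k : CellA m₀ ⊕ CellB m₀, Sum.elim (fun a => a.1.1) (fun b => b.1) k = i ∧
        ¬ Sat (Sum.elim (clA x) (clB c y) k) (z ∘ V) := by
    intro i hi
    rcases viol_one c x y (z ∘ V) i (mem_filter.1 hi).2 with ⟨a, ha, h⟩ | ⟨b, hb, h⟩
    · exact ⟨Sum.inl a, ha, h⟩
    · exact ⟨Sum.inr b, hb, h⟩
  choose! κ h1 h2 using h0
  have h3 : vio c (comb x y) (fun v => z (V (vS v))) ≤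
      (univ.filter fun i => ¬ ∃ s, z (form c e V x y i s).1 = (form c e V x y i s).2).card := by
    unfold vio
    refine Finset.card_le_card_of_injOn (fun i => e (κ i)) ?_ ?_
    · intro i hi
      refine mem_coe.2 (mem_filter.2 ⟨mem_univ _, ?_⟩)
      rintro ⟨s, hs⟩
      refine h2 i (mem_coe.1 hi) ⟨s, ?_⟩
      simp only [form_e c he] at hs
      exact hs
    · intro i hi j hj hij
      rw [← h1 i (mem_coe.1 hi), ← h1 j (mem_coe.1 hj), he hij]
  have h4 : numTrue (form c e V x y) z +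
      (univ.filter fun i => ¬ ∃ s, z (form c e V x y i s).1 = (form c e V x y i s).2).card = m := by
    unfold numTrue
    rw [Finset.card_filter_add_card_filter_not, card_univ, Fintype.card_fin]
  omega

end Pool.Agent.Y601.OB
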