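import Pool.Agent.Y601.OB.Main

set_option autoImplicit false
set_option linter.unusedSectionVars false

/-!
The final bounds.
-/

namespace Pool.Agent.Y601.OB

open Finset Pool.Agent.Y601.GS Pool.Agent.W888.GX

theorem fin_real {d D B : ℕ} (hd : 8 ≤ d)
    (h : (2 : ℝ) ^ d ≤ 2 * (((D ^ (B + 1) : ℕ) : ℝ) + 1)) :
    1 ≤ D ∧ (2 : ℝ) ^ (d - 3) ≤ (D : ℝ) ^ (B + 1) := by
  have h8 : (2 : ℝ) ^ 8 ≤ 2 ^ d := pow_le_pow_right₀ (by norm_num) hd
  have hD : 1 ≤ D := by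
    by_contra hcon
    obtain rfl : D = 0 := by omega
    simp only [zero_pow (Nat.succ_ne_zero B), Nat.cast_zero] at h
    norm_num at h8
    linarith
  refine ⟨hD, ?_⟩
  have h1 : (1 : ℝ) ≤ (D : ℝ) ^ (B + 1) := one_le_pow₀ (by exact_mod_cast hD)
  have h2 : (2 : ℝ) ^ d = 2 ^ (d - 3) * 8 := by
    conv_lhs => rw [← Nat.sub_add_cancel (show 3 ≤ d by omega), pow_add]
    norm_num
  push_cast at h
  rw [h2] at h
  have h3 : (0 : ℝ) < 2 ^ (d - 3) := by positivity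
  linarith

theorem fin_q {d q B : ℕ} (hd : 8 ≤ d)
    (h : (2 : ℝ) ^ d ≤ 2 * ((((q * q) ^ (B + 1) + (q * q) ^ (B + 1) : ℕ) : ℝ) + 1)) :
    1 ≤ q ∧ (2 : ℝ) ^ (d - 3) ≤ (q : ℝ) ^ (2 * (B + 1)) := by
  have h8 : (2 : ℝ) ^ 8 ≤ 2 ^ d := pow_le_pow_right₀ (by norm_num) hd
  have hq : 1 ≤ q := by
    by_contra hcon
    obtain rfl : q = 0 := by omega
    simp only [mul_zero, zero_pow (Nat.succ_ne_zero B), add_zero, Nat.cast_zero] at h
    norm_num at h8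
    linarith
  refine ⟨hq, ?_⟩
  have h1 : (1 : ℝ) ≤ (q : ℝ) ^ (2 * (B + 1)) := one_le_pow₀ (by exact_mod_cast hq)
  have h2 : (2 : ℝ) ^ d = 2 ^ (d - 3) * 8 := by
    conv_lhs => rw [← Nat.sub_add_cancel (show 3 ≤ d by omega), pow_add]
    norm_num
  have h4 : (((q * q) ^ (B + 1) + (q * q) ^ (B + 1) : ℕ) : ℝ) = 2 * (q : ℝ) ^ (2 * (B + 1)) := by
    push_cast
    rw [← sq, ← pow_mul]
    ring
  rw [h4, h2] at h
  have h3 : (0 : ℝ) < 2 ^ (d - 3) := by positivity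
  linarith

/-- the exponent -/
theorem fin_exp {n d Kd s : ℕ} {X γ : ℝ} (hKd : 1 ≤ Kd) (hs : 1 ≤ s) (hd : 8 ≤ d)
    (hn : n ≤ Kd * d) (hγ : γ = 1 / (2 * s * Kd)) (hX : 0 ≤ X) (h : (2 : ℝ) ^ (d - 3) ≤ X ^ s) :
    (2 : ℝ) ^ (γ * n) ≤ X := by
  have hs0 : (0 : ℝ) < s := by exact_mod_cast hs
  have hK0 : (0 : ℝ) < Kd := by exact_mod_cast hKd
  have h1 : γ * n * s ≤ ((d - 3 : ℕ) : ℝ) := by
    rw [Nat.cast_sub (by omega), hγ]
    have h2 : (n : ℝ) ≤ Kd * d := by exact_mod_cast hn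
    have h3 : (8 : ℝ) ≤ d := by exact_mod_cast hd
    have h4 : 1 / (2 * (s : ℝ) * Kd) * n * s = n / (2 * Kd) := by
      field_simp
    rw [h4, div_le_iff₀ (by positivity)]
    push_cast
    nlinarith
  have h2 : ((2 : ℝ) ^ (γ * n)) ^ s ≤ X ^ s := by
    rw [← Real.rpow_natCast, ← Real.rpow_mul (by norm_num)]
    refine le_trans ?_ h
    rw [← Real.rpow_natCast 2 (d - 3)]
    exact Real.rpow_le_rpow_of_exponent_le (by norm_num) h1
  exact le_of_pow_le_pow_left₀ (by omega) hX h2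

/-- machines which make `p` passes over the list of the clauses -/
theorem passes : ∃ ε γ : ℝ, 0 < ε ∧ 0 < γ ∧ ∃ Δ n₁ : ℕ, ∀ n : ℕ, n₁ ≤ n →
    ∀ pos : ℕ → Fin (Δ * n), (∀ t, (pos t : ℕ) = t % (Δ * n)) → ∀ p : ℕ, 1 ≤ p →
      (∀ (D : ℕ) (A : ℕ → (Fin 3 → Fin n × Bool) → Matrix (Fin D) (Fin D) ℝ) (u v : Fin D → ℝ),
        Separates ε (fun w => u ⬝ᵥ run pos A v w (p * (Δ * n))) →
        (2 : ℝ) ^ (γ * n) ≤ (D : ℝ) ^ p) ∧
      ∀ (q J : ℕ) (K : ℕ → (Fin 3 → Fin n × Bool) → Fin J → Matrix (Fin q) (Fin q) ℂ)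
        (ρ E : Matrix (Fin q) (Fin q) ℂ),
        Separates ε (fun w => (E * qrun pos K ρ w (p * (Δ * n))).trace.re) →
        (2 : ℝ) ^ (γ * n) ≤ (q : ℝ) ^ p := by
  obtain ⟨C, Kd, hC, hKd, n₁, hinst⟩ := exists_instances
  have hC0 : (0 : ℝ) < C := by exact_mod_cast hC
  have hK0 : (0 : ℝ) < Kd := by exact_mod_cast hKd
  refine ⟨1 / (128 * C), 1 / (12 * Kd), by positivity, by positivity, 32, n₁ + 1, ?_⟩
  intro n hn pos hpos p hp
  obtain ⟨n₀, m₀, d, c, V, hV, hm₀n, hm₀, hnC, hd8, hnd, hdm, hdn, hinj, hlog, honce⟩ :=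
    hinst n (by omega)
  obtain ⟨L, hL⟩ : ∃ L, L = 16 * n := ⟨_, rfl⟩
  have hL1 : 1 ≤ L := by omega
  have hm : 32 * n = L * 2 := by omega
  have hε : 1 / (128 * (C : ℝ)) * ((32 * n : ℕ) : ℝ) ≤ (1 / 2 - 1 / 4) * m₀ := by
    have h1 : (n : ℝ) ≤ C * m₀ := by exact_mod_cast hnC
    push_cast
    rw [div_mul_eq_mul_div, div_le_iff₀ (by positivity)]
    nlinarith
  -- the two halves
  obtain ⟨e, he, heA, heB⟩ := exists_embed (m₀ := m₀)
    (univ.filter fun i : Fin (32 * n) => (i : ℕ) < L)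
    (univ.filter fun i : Fin (32 * n) => ¬ (i : ℕ) < L) (by
      have h1 : (univ.filter fun i : Fin (32 * n) => (i : ℕ) < L).card = L := by
        rw [Fin.card_filter_val_lt]
        omega
      omega) (by
      have h1 : (univ.filter fun i : Fin (32 * n) => (i : ℕ) < L).card = L := by
        rw [Fin.card_filter_val_lt]
        omega
      have h2 := Finset.card_filter_add_card_filter_not (s := (univ : Finset (Fin (32 * n))))
        (fun i => (i : ℕ) < L)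
      rw [card_univ, Fintype.card_fin] at h2
      omega)
  have hmod : ∀ t, (pos t : ℕ) = t % L + L * (t / L % 2) := by
    intro t
    rw [hpos, hm, Nat.mod_mul]
  have hX : ∀ t < p * (32 * n), (decide (t / L % 2 = 0)) = true →
      ∀ b, e (Sum.inr b) ≠ pos t := by
    intro t _ hχ b hb
    have h1 := (mem_filter.1 (heB b)).2
    rw [hb, hmod, of_decide_eq_true hχ] at h1
    have h2 := Nat.mod_lt t hL1
    omega
  have hY : ∀ t < p * (32 * n), (decide (t / L % 2 = 0)) = false →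
      ∀ a, e (Sum.inl a) ≠ pos t := by
    intro t _ hχ a ha
    have h1 := (mem_filter.1 (heA a)).2
    have h3 : t / L % 2 = 1 := by
      have h4 := of_decide_eq_false hχ
      omega
    rw [ha, hmod, h3] at h1
    omega
  have hT : p * (32 * n) ≤ (2 * p) * L := by
    rw [hm]
    exact le_of_eq (by ring)
  refine ⟨fun D A u v hF => ?_, fun q J K ρ E hF => ?_⟩
  · have h1 := rank_form c (by norm_num) (by norm_num) hm₀ hlog hdm hdn honce hinj he hV hε hF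
      (rank_run c he V pos A u v (fun b => decide (b % 2 = 0)) L hL1 (2 * p) _ hT hX hY)
    obtain ⟨hD, h2⟩ := fin_real hd8 h1
    have hD' : (1 : ℝ) ≤ D := by exact_mod_cast hD
    refine fin_exp (s := 6) hKd (by norm_num) hd8 hnd (by norm_num) (by positivity) ?_
    rw [← pow_mul]
    exact h2.trans (pow_le_pow_right₀ hD' (by omega))
  · have h1 := rank_form c (by norm_num) (by norm_num) hm₀ hlog hdm hdn honce hinj he hV hε hF
      (rank_qrun c he V pos K ρ E (fun b => decide (b % 2 = 0)) L hL1 (2 * p) _ hT hX hY)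
    obtain ⟨hq, h2⟩ := fin_q hd8 h1
    have hq' : (1 : ℝ) ≤ q := by exact_mod_cast hq
    refine fin_exp (s := 6) hKd (by norm_num) hd8 hnd (by norm_num) (by positivity) ?_
    rw [← pow_mul]
    exact h2.trans (pow_le_pow_right₀ hq' (by omega))

/-- machines which read `k m` clauses in any fixed order -/
theorem oblivious (k : ℕ) (hk : 1 ≤ k) : ∃ ε γ : ℝ, 0 < ε ∧ 0 < γ ∧ ∃ Δ n₁ : ℕ, ∀ n : ℕ,
    n₁ ≤ n → ∀ (pos : ℕ → Fin (Δ * n)) (T : ℕ), T ≤ k * (Δ * n) →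
      (∀ (D : ℕ) (A : ℕ → (Fin 3 → Fin n × Bool) → Matrix (Fin D) (Fin D) ℝ) (u v : Fin D → ℝ),
        Separates ε (fun w => u ⬝ᵥ run pos A v w T) → (2 : ℝ) ^ (γ * n) ≤ D) ∧
      ∀ (q J : ℕ) (K : ℕ → (Fin 3 → Fin n × Bool) → Fin J → Matrix (Fin q) (Fin q) ℂ)
        (ρ E : Matrix (Fin q) (Fin q) ℂ),
        Separates ε (fun w => (E * qrun pos K ρ w T).trace.re) → (2 : ℝ) ^ (γ * n) ≤ q := by
  classical
  obtain ⟨C, Kd, hC, hKd, n₁, hinst⟩ := exists_instances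
  have hC0 : (0 : ℝ) < C := by exact_mod_cast hC
  have hK0 : (0 : ℝ) < Kd := by exact_mod_cast hKd
  obtain ⟨Δ, hΔ⟩ : ∃ Δ, Δ = 8 * k * 16 ^ (k + 1) := ⟨_, rfl⟩
  have hΔ1 : 1 ≤ Δ := by rw [hΔ]; exact Nat.mul_pos (by omega) (by positivity)
  have hΔ0 : (0 : ℝ) < Δ := by exact_mod_cast hΔ1
  obtain ⟨s, hs⟩ : ∃ s, s = 2 * (8 * k ^ 2 + 1) := ⟨_, rfl⟩
  have hs1 : 1 ≤ s := by omega
  have hs0 : (0 : ℝ) < s := by exact_mod_cast hs1
  refine ⟨1 / (4 * Δ * C), 1 / (2 * s * Kd), by positivity, by positivity, Δ, n₁ + 1, ?_⟩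
  intro n hn pos T hT
  obtain ⟨n₀, m₀, d, c, V, hV, hm₀n, hm₀, hnC, hd8, hnd, hdm, hdn, hinj, hlog, honce⟩ :=
    hinst n (by omega)
  obtain ⟨L, hL⟩ : ∃ L, L = 16 ^ (k + 1) * n := ⟨_, rfl⟩
  have hL1 : 1 ≤ L := by
    rw [hL]
    exact Nat.mul_pos (by positivity) (by omega)
  have hm : Δ * n = 8 * k * L := by rw [hΔ, hL]; ring
  have hε : 1 / (4 * (Δ : ℝ) * C) * ((Δ * n : ℕ) : ℝ) ≤ (1 / 2 - 1 / 4) * m₀ := by
    have h1 : (n : ℝ) ≤ C * m₀ := by exact_mod_cast hnC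
    push_cast
    rw [div_mul_eq_mul_div, div_le_iff₀ (by positivity)]
    nlinarith
  obtain ⟨χ, hχA, hχB⟩ := exists_colour hk hL1 hm hT pos
  have hbig : ∀ S : Finset (Fin (Δ * n)), Δ * n ≤ 8 * 16 ^ k * S.card → 16 * m₀ ≤ S.card := by
    intro S hS
    have h1 : 8 * 16 ^ k * (16 * k * n) = Δ * n := by rw [hΔ]; ring
    have h2 := Nat.le_of_mul_le_mul_left (h1.le.trans hS) (by positivity)
    have h3 : 16 * m₀ ≤ 16 * k * n := by nlinarith
    omega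
  obtain ⟨e, he, heA, heB⟩ := exists_embed (m₀ := m₀)
    (univ.filter fun i : Fin (Δ * n) => ∀ t < T, pos t = i → χ (t / L) = true)
    (univ.filter fun i : Fin (Δ * n) => ∀ t < T, pos t = i → χ (t / L) = false)
    (by have := hbig _ hχA; omega) (hbig _ hχB)
  have hX : ∀ t < T, χ (t / L) = true → ∀ b, e (Sum.inr b) ≠ pos t := by
    intro t ht hχ b hb
    have h1 := (mem_filter.1 (heB b)).2 t ht hb.symm
    rw [hχ] at h1
    exact absurd h1 (by simp)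
  have hY : ∀ t < T, χ (t / L) = false → ∀ a, e (Sum.inl a) ≠ pos t := by
    intro t ht hχ a ha
    have h1 := (mem_filter.1 (heA a)).2 t ht ha.symm
    rw [hχ] at h1
    exact absurd h1 (by simp)
  have hTB : T ≤ (8 * k ^ 2) * L := by
    refine hT.trans (le_of_eq ?_)
    rw [hm]
    ring
  refine ⟨fun D A u v hF => ?_, fun q J K ρ E hF => ?_⟩
  · have h1 := rank_form c (by norm_num) (by norm_num) hm₀ hlog hdm hdn honce hinj he hV hε hF
      (rank_run c he V pos A u v χ L hL1 (8 * k ^ 2) _ hTB hX hY)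
    obtain ⟨hD, h2⟩ := fin_real hd8 h1
    have hD' : (1 : ℝ) ≤ D := by exact_mod_cast hD
    refine fin_exp hKd hs1 hd8 hnd rfl (by positivity) ?_
    exact h2.trans (pow_le_pow_right₀ hD' (by omega))
  · have h1 := rank_form c (by norm_num) (by norm_num) hm₀ hlog hdm hdn honce hinj he hV hε hF
      (rank_qrun c he V pos K ρ E χ L hL1 (8 * k ^ 2) _ hTB hX hY)
    obtain ⟨hq, h2⟩ := fin_q hd8 h1
    have hq' : (1 : ℝ) ≤ q := by exact_mod_cast hq
    refine fin_exp hKd hs1 hd8 hnd rfl (by positivity) ?_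
    exact h2.trans (pow_le_pow_right₀ hq' (by omega))

end Pool.Agent.Y601.OB
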