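import Pool.Agent.Y601.GS.Main
import Pool.Agent.Y601.OB.Color
import Pool.Agent.Y601.OB.Embed

set_option autoImplicit false
set_option linter.unusedSectionVars false

/-!
Lower bounds for machines which read the clauses in a fixed order.
-/

namespace Pool.Agent.Y601.OB

open Finset Pool.Agent.Y601.GS Pool.Agent.W888.GX

variable {n₀ m₀ : ℕ}

/-- the rank of a function which separates the right-hand sides -/
theorem rank_general (c : Fin m₀ → Fin 3 → Fin n₀) {δ : ℝ} (hδ : 0 < δ) (hδ1 : δ < 1 / 2)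
    (hm : 1 ≤ m₀) (hlog : 2 * (Real.log 2 * n₀) ≤ 2 * δ ^ 2 * m₀) {d : ℕ} (hd : d ≤ m₀)
    (hdn : d + 1 ≤ n₀) (honce : ∀ S : Finset (Fin m₀), 1 ≤ S.card → S.card < 2 * d →
      ∃ v, mu c S v = 1)
    {r : ℕ} (F : (Fin m₀ × Bool → Bool) → (Fin m₀ → Bool) × (Fin m₀ → Bool) → ℝ)
    (hF : RankLe r F) (hyes : ∀ x y z, comb x y = ev c z → 0 < F x y)
    (hno : ∀ x y, comb x y ∉ nearSet c δ → F x y ≤ 0) :
    2 ^ d ≤ 2 * ((r : ℝ) + 1) := by
  classical
  obtain ⟨f, g, hfg⟩ := hF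
  -- a lower bound for the satisfiable pairs
  obtain ⟨θ, hθ0, hθ⟩ : ∃ θ : ℝ, 0 < θ ∧ ∀ x y z, comb x y = ev c z → θ ≤ F x y := by
    let P : Finset ((Fin m₀ × Bool → Bool) × ((Fin m₀ → Bool) × (Fin m₀ → Bool))) :=
      univ.filter fun q => ∃ z, comb q.1 q.2 = ev c z
    let A : Finset ℝ := insert 1 (P.image fun q => F q.1 q.2)
    have hA : A.Nonempty := ⟨1, mem_insert_self _ _⟩
    refine ⟨A.min' hA, ?_, fun x y z h => ?_⟩
    · rw [Finset.lt_min'_iff]
      intro b hb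
      rcases mem_insert.1 hb with rfl | hb
      · exact one_pos
      · obtain ⟨q, hq, rfl⟩ := mem_image.1 hb
        obtain ⟨z, hz⟩ := (mem_filter.1 hq).2
        exact hyes _ _ z hz
    · exact Finset.min'_le _ _ (mem_insert_of_mem (mem_image.2
        ⟨(x, y), mem_filter.2 ⟨mem_univ _, z, h⟩, rfl⟩))
  have key := sign_rank_pattern (d := d) (r := r + 1) (ev c) hd
    (fun S hS1 hS2 => by
      obtain ⟨v, hv⟩ := honce S hS1 hS2
      exact sum_chi_ev c S v hv)
    (nearSet c δ) (fun z => ev_mem_nearSet hδ1 hm c z)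
    (fun x => Fin.snoc (fun k => f k x) (-(θ / 2)))
    (fun y => Fin.snoc (fun k => g k y) 1)
    (fun x y z h => by
      rw [dotProduct, Fin.sum_univ_castSucc]
      simp only [Fin.snoc_castSucc, Fin.snoc_last]
      have := hθ x y z h
      rw [hfg] at this
      linarith)
    (fun x y h => by
      rw [dotProduct, Fin.sum_univ_castSucc]
      simp only [Fin.snoc_castSucc, Fin.snoc_last]
      have := hno x y h
      rw [hfg] at this
      linarith)
  have h1 := card_nearSet hδ hlog c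
  have h2 : ((nearSet c δ).card : ℝ) / 2 ^ m₀ ≤ 1 / 2 ^ n₀ := by
    rw [div_le_div_iff₀ (by positivity) (by positivity), one_mul]
    exact h1
  have h3 : 2 * (1 / 2 ^ n₀ : ℝ) ≤ 1 / 2 ^ d := by
    rw [mul_one_div, div_le_div_iff₀ (by positivity) (by positivity), one_mul, ← pow_succ']
    exact pow_le_pow_right₀ (by norm_num) hdn
  have h4 : (1 : ℝ) ≤ ((r + 1 : ℕ) : ℝ) * (2 / 2 ^ d) := by
    refine key.trans (mul_le_mul_of_nonneg_left ?_ (Nat.cast_nonneg _))
    have h5 : 2 * (((nearSet c δ).card : ℝ) / 2 ^ m₀) ≤ 2 * (1 / 2 ^ n₀ : ℝ) :=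
      mul_le_mul_of_nonneg_left h2 (by norm_num)
    have h6 : (2 : ℝ) / 2 ^ d = 1 / 2 ^ d + 1 / 2 ^ d := by ring
    linarith
  rw [mul_div_assoc', le_div_iff₀ (by positivity), one_mul] at h4
  push_cast at h4
  linarith

variable {m n : ℕ}

/-- the rank of a function of formulas which separates -/
theorem rank_form (c : Fin m₀ → Fin 3 → Fin n₀) {δ : ℝ} (hδ : 0 < δ) (hδ1 : δ < 1 / 2)
    (hm : 1 ≤ m₀) (hlog : 2 * (Real.log 2 * n₀) ≤ 2 * δ ^ 2 * m₀) {d : ℕ} (hd : d ≤ m₀)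
    (hdn : d + 1 ≤ n₀) (honce : ∀ S : Finset (Fin m₀), 1 ≤ S.card → S.card < 2 * d →
      ∃ v, mu c S v = 1) (hc : ∀ i, Function.Injective (c i))
    {e : CellA m₀ ⊕ CellB m₀ → Fin m} (he : Function.Injective e) {V : Var n₀ m₀ → Fin n}
    (hV : Function.Injective V) {ε : ℝ} (hε : ε * m ≤ (1 / 2 - δ) * m₀)
    {F : (Fin m → Fin 3 → Fin n × Bool) → ℝ} (hF : Separates ε F) {r : ℕ}
    (hr : RankLe r fun x y => F (form c e V x y)) : 2 ^ d ≤ 2 * ((r : ℝ) + 1) := by
  refine rank_general c hδ hδ1 hm hlog hd hdn honce _ hr (fun x y z h => ?_) fun x y h => ?_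
  · exact (hF _ (form_proper c hc he hV x y)).1 (numTrue_form c he hV x y z h)
  · have h1 : ∀ z, (1 / 2 - δ) * m₀ ≤ (vio c (comb x y) z : ℝ) := by
      by_contra hcon
      exact h (mem_filter.2 ⟨mem_univ _, hcon⟩)
    refine (hF _ (form_proper c hc he hV x y)).2 fun z => ?_
    have h2 : ((numTrue (form c e V x y) z : ℕ) : ℝ) +
        (vio c (comb x y) (fun v => z (V (vS v))) : ℝ) ≤ m := by
      exact_mod_cast numTrue_le c he V x y z
    have h3 := h1 (fun v => z (V (vS v)))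
    linarith

/-- weighted programs -/
theorem rank_run {D : ℕ} (c : Fin m₀ → Fin 3 → Fin n₀)
    {e : CellA m₀ ⊕ CellB m₀ → Fin m} (he : Function.Injective e) (V : Var n₀ m₀ → Fin n)
    (pos : ℕ → Fin m) (A : ℕ → (Fin 3 → Fin n × Bool) → Matrix (Fin D) (Fin D) ℝ)
    (u v : Fin D → ℝ) (χ : ℕ → Bool) (L : ℕ) (hL : 1 ≤ L) (B T : ℕ) (hT : T ≤ B * L)
    (hX : ∀ t < T, χ (t / L) = true → ∀ b, e (Sum.inr b) ≠ pos t)
    (hY : ∀ t < T, χ (t / L) = false → ∀ a, e (Sum.inl a) ≠ pos t) :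
    RankLe (D ^ (B + 1)) fun x y => u ⬝ᵥ run pos A v (form c e V x y) T := by
  have h1 := rank_value (X := Fin m₀ × Bool → Bool) (Y := (Fin m₀ → Bool) × (Fin m₀ → Bool))
    (fun t x y => A t (form c e V x y (pos t))) u v χ L hL B T hT
    (fun t ht hχ => ⟨fun x => A t (form c e V x default (pos t)), fun x y => by
      rw [form_X c he V (pos t) (hX t ht hχ) x y default]⟩)
    (fun t ht hχ => ⟨fun y => A t (form c e V default y (pos t)), fun x y => by
      rw [form_Y c he V (pos t) (hY t ht hχ) x default y]⟩)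
  rw [Fintype.card_fin] at h1
  have h2 : ∀ x y t, run pos A v (form c e V x y) t =
      state (fun t x y => A t (form c e V x y (pos t))) v x y t := by
    intro x y t
    induction t with
    | zero => rfl
    | succ t ih => rw [run, state, ih]
  have h3 : (fun x y => u ⬝ᵥ run pos A v (form c e V x y) T) = fun x y =>
      u ⬝ᵥ state (fun t x y => A t (form c e V x y (pos t))) v x y T := by
    funext x y
    rw [h2]
  rw [h3]
  exact h1

/-- the real part -/
theorem RankLe.re {X Y : Type} {N : ℕ} {F : X → Y → ℂ} (h : RankLe N F) :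
    RankLe (N + N) fun x y => (F x y).re := by
  obtain ⟨f, g, h⟩ := h
  refine ⟨fun κ x => Fin.addCases (fun i => (f i x).re) (fun i => -(f i x).im) κ,
    fun κ y => Fin.addCases (fun i => (g i y).re) (fun i => (g i y).im) κ, fun x y => ?_⟩
  beta_reduce
  rw [h, Complex.re_sum, Fin.sum_univ_add, ← Finset.sum_add_distrib]
  refine Finset.sum_congr rfl fun κ _ => ?_
  simp only [Fin.addCases_left, Fin.addCases_right, Complex.mul_re]
  ring

/-- the matrix of a completely positive map -/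
noncomputable def sup {q J : ℕ} (K : Fin J → Matrix (Fin q) (Fin q) ℂ) :
    Matrix (Fin q × Fin q) (Fin q × Fin q) ℂ :=
  fun p p' => ∑ j, K j p.1 p'.1 * star (K j p.2 p'.2)

theorem sup_apply {q J : ℕ} (K : Fin J → Matrix (Fin q) (Fin q) ℂ) (ρ : Matrix (Fin q) (Fin q) ℂ)
    (p : Fin q × Fin q) :
    (sup K).mulVec (fun p' => ρ p'.1 p'.2) p =
      (∑ j, K j * ρ * (K j).conjTranspose) p.1 p.2 := by
  rw [Matrix.sum_apply]
  unfold Matrix.mulVec dotProduct sup
  simp only [Matrix.mul_apply, Matrix.conjTranspose_apply, Finset.sum_mul]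
  rw [Finset.sum_comm]
  refine Finset.sum_congr rfl fun j _ => ?_
  rw [Fintype.sum_prod_type, Finset.sum_comm]
  refine Finset.sum_congr rfl fun b _ => Finset.sum_congr rfl fun a _ => ?_
  ring

/-- quantum machines -/
theorem rank_qrun {q J : ℕ} (c : Fin m₀ → Fin 3 → Fin n₀)
    {e : CellA m₀ ⊕ CellB m₀ → Fin m} (he : Function.Injective e) (V : Var n₀ m₀ → Fin n)
    (pos : ℕ → Fin m) (K : ℕ → (Fin 3 → Fin n × Bool) → Fin J → Matrix (Fin q) (Fin q) ℂ)
    (ρ E : Matrix (Fin q) (Fin q) ℂ) (χ : ℕ → Bool) (L : ℕ) (hL : 1 ≤ L) (B T : ℕ)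
    (hT : T ≤ B * L)
    (hX : ∀ t < T, χ (t / L) = true → ∀ b, e (Sum.inr b) ≠ pos t)
    (hY : ∀ t < T, χ (t / L) = false → ∀ a, e (Sum.inl a) ≠ pos t) :
    RankLe ((q * q) ^ (B + 1) + (q * q) ^ (B + 1)) fun x y =>
      (E * qrun pos K ρ (form c e V x y) T).trace.re := by
  have h1 := rank_value (X := Fin m₀ × Bool → Bool) (Y := (Fin m₀ → Bool) × (Fin m₀ → Bool))
    (fun t x y => sup (K t (form c e V x y (pos t)))) (fun p => E p.2 p.1)
    (fun p => ρ p.1 p.2) χ L hL B T hT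
    (fun t ht hχ => ⟨fun x => sup (K t (form c e V x default (pos t))), fun x y => by
      rw [form_X c he V (pos t) (hX t ht hχ) x y default]⟩)
    (fun t ht hχ => ⟨fun y => sup (K t (form c e V default y (pos t))), fun x y => by
      rw [form_Y c he V (pos t) (hY t ht hχ) x default y]⟩)
  rw [Fintype.card_prod, Fintype.card_fin] at h1
  have h2 : ∀ x y t, (fun p : Fin q × Fin q => qrun pos K ρ (form c e V x y) t p.1 p.2) =
      state (fun t x y => sup (K t (form c e V x y (pos t)))) (fun p => ρ p.1 p.2) x y t := by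
    intro x y t
    induction t with
    | zero => rfl
    | succ t ih =>
      rw [state, ← ih]
      funext p
      rw [sup_apply]
      rfl
  have h3 : (fun x y => (E * qrun pos K ρ (form c e V x y) T).trace) = fun x y =>
      (fun p : Fin q × Fin q => E p.2 p.1) ⬝ᵥ
        state (fun t x y => sup (K t (form c e V x y (pos t)))) (fun p => ρ p.1 p.2) x y T := by
    funext x y
    rw [← h2]
    unfold Matrix.trace dotProduct
    simp only [Matrix.diag_apply, Matrix.mul_apply]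
    rw [Fintype.sum_prod_type, Finset.sum_comm]
  rw [← h3] at h1
  exact h1.re

/-- the instances for all numbers of variables -/
theorem exists_instances : ∃ C Kd : ℕ, 1 ≤ C ∧ 1 ≤ Kd ∧ ∃ n₁ : ℕ, ∀ n : ℕ, n₁ ≤ n →
    ∃ (n₀ m₀ d : ℕ) (c : Fin m₀ → Fin 3 → Fin n₀) (V : Var n₀ m₀ → Fin n),
      Function.Injective V ∧ m₀ ≤ n ∧ 1 ≤ m₀ ∧ n ≤ C * m₀ ∧ 8 ≤ d ∧ n ≤ Kd * d ∧
      d ≤ m₀ ∧ d + 1 ≤ n₀ ∧ (∀ i, Function.Injective (c i)) ∧
      2 * (Real.log 2 * n₀) ≤ 2 * (1 / 4 : ℝ) ^ 2 * m₀ ∧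
      ∀ S : Finset (Fin m₀), 1 ≤ S.card → S.card < 2 * d → ∃ v, mu c S v = 1 := by
  obtain ⟨M, K, hM, hK, n₂, hsys⟩ := exists_system (1 / 4) (by norm_num)
  obtain ⟨Q, hQ⟩ : ∃ Q, Q = 3 * M + 4 := ⟨_, rfl⟩
  have hQ0 : 1 ≤ Q := by omega
  refine ⟨4 * Q, 4 * Q * K, by omega, Nat.mul_pos (by omega) (by omega),
    Q * (n₂ + 8 * K), fun n hn => ?_⟩
  obtain ⟨n₀, hn₀⟩ : ∃ n₀, n₀ = n / Q := ⟨_, rfl⟩
  have hn₀1 : n₂ + 8 * K ≤ n₀ := by
    rw [hn₀, Nat.le_div_iff_mul_le (by omega), mul_comm]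
    exact hn
  have hn₀2 : Q * n₀ ≤ n := by
    rw [hn₀]
    exact Nat.mul_div_le n Q
  have hn₀3 : n < Q * (n₀ + 1) := by
    rw [hn₀]
    exact Nat.lt_mul_div_succ n (by omega)
  obtain ⟨m₀, c, hm1, hm2, hlog, hinj, honce⟩ := hsys n₀ (by omega)
  obtain ⟨d, hd⟩ : ∃ d, d = n₀ / K := ⟨_, rfl⟩
  have hdK : d * K ≤ n₀ := by rw [hd]; exact Nat.div_mul_le_self n₀ K
  have hd8 : 8 ≤ d := by
    rw [hd, Nat.le_div_iff_mul_le (by omega)]
    omega
  have hd4 : 4 * d ≤ n₀ := le_trans (by rw [mul_comm]; exact Nat.mul_le_mul_left d hK) hdK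
  have hdn : n₀ < K * (d + 1) := by
    rw [hd]
    exact Nat.lt_mul_div_succ n₀ (by omega)
  have hcard : Fintype.card (Var n₀ m₀) ≤ n := by
    simp only [Fintype.card_sum, Fintype.card_prod, Fintype.card_fin, Fintype.card_bool]
    have h1 : n₀ + (m₀ * 2 + (m₀ + 3)) = n₀ + 3 * m₀ + 3 := by ring
    rw [h1]
    have h2 : 3 * m₀ ≤ 3 * (M * n₀) := Nat.mul_le_mul_left 3 hm1
    have h3 : Q * n₀ = 3 * (M * n₀) + 4 * n₀ := by rw [hQ]; ring
    omega
  have hcard' : Fintype.card (Var n₀ m₀) ≤ Fintype.card (Fin n) := by rwa [Fintype.card_fin]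
  obtain ⟨V⟩ := Function.Embedding.nonempty_of_card_le hcard'
  refine ⟨n₀, m₀, d, c, V, V.injective, ?_, by omega, ?_, hd8, ?_, by omega, by omega, hinj, hlog,
    fun S hS1 hS2 => honce S hS1 (by rw [← hd]; omega)⟩
  · have h2 : Q * n₀ = 3 * (M * n₀) + 4 * n₀ := by rw [hQ]; ring
    omega
  · calc n ≤ Q * (n₀ + 1) := hn₀3.le
      _ ≤ Q * (2 * n₀) := Nat.mul_le_mul_left _ (by omega)
      _ ≤ Q * (2 * (2 * m₀)) := Nat.mul_le_mul_left _ (Nat.mul_le_mul_left _ hm2)
      _ = 4 * Q * m₀ := by ring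
  · calc n ≤ Q * (n₀ + 1) := hn₀3.le
      _ ≤ Q * (K * (d + 1)) := Nat.mul_le_mul_left _ (by omega)
      _ ≤ Q * (K * (4 * d)) :=
        Nat.mul_le_mul_left _ (Nat.mul_le_mul_left _ (by omega))
      _ = 4 * Q * K * d := by ring

/-- an embedding of the clauses into two sets of cells -/
theorem exists_embed {m₀ m : ℕ} (SA SB : Finset (Fin m)) (hA : 8 * m₀ ≤ SA.card)
    (hB : 16 * m₀ ≤ SB.card) :
    ∃ e : CellA m₀ ⊕ CellB m₀ → Fin m, Function.Injective e ∧ (∀ a, e (Sum.inl a) ∈ SA) ∧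
      ∀ b, e (Sum.inr b) ∈ SB := by
  classical
  obtain ⟨A', hA'1, hA'2⟩ := Finset.exists_subset_card_eq hA
  have hB' : 8 * m₀ ≤ (SB \ A').card := by
    have := Finset.le_card_sdiff A' SB
    omega
  have h1 : Fintype.card (CellA m₀) ≤ Fintype.card A' := by
    rw [Fintype.card_coe, hA'2]
    simp only [Fintype.card_prod, Fintype.card_fin, Fintype.card_bool]
    omega
  have h2 : Fintype.card (CellB m₀) ≤ Fintype.card (SB \ A' : Finset (Fin m)) := by
    rw [Fintype.card_coe]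
    simp only [Fintype.card_prod, Fintype.card_fin, Fintype.card_bool]
    omega
  obtain ⟨f⟩ := Function.Embedding.nonempty_of_card_le h1
  obtain ⟨g⟩ := Function.Embedding.nonempty_of_card_le h2
  refine ⟨Sum.elim (fun a => (f a : Fin m)) (fun b => (g b : Fin m)), ?_, fun a => ?_, fun b => ?_⟩
  · rintro (a | b) (a' | b') h
    · simp only [Sum.elim_inl] at h
      rw [f.injective (Subtype.ext h)]
    · simp only [Sum.elim_inl, Sum.elim_inr] at h
      have h3 := (mem_sdiff.1 (g b').2).2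
      rw [← h] at h3
      exact absurd (f a).2 h3
    · simp only [Sum.elim_inl, Sum.elim_inr] at h
      have h3 := (mem_sdiff.1 (g b).2).2
      rw [h] at h3
      exact absurd (f a').2 h3
    · simp only [Sum.elim_inr] at h
      rw [g.injective (Subtype.ext h)]
  · exact hA'1 (f a).2
  · exact (mem_sdiff.1 (g b).2).1

end Pool.Agent.Y601.OB
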